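import Pool.Agent.Helper19.SQ.GoalsH

/-!
# Packet LAYX of project SQ
-/

namespace Pool.Agent.Helper50.SQ

open Pool.Agent.Helper19.SQ

section

variable {N l : ℕ} {q : ℂ} {H : A N l q →ₐ[ℂ] Mat N (A N l q)} {M : Type} [AddCommGroup M]
  [Module ℂ M] [Module (A N l q) M] [IsScalarTower ℂ (A N l q) M]

omit [Module ℂ M] [Module (A N l q) M] [IsScalarTower ℂ (A N l q) M] in
theorem tv_add (j : Fin (N + 1)) (m m' : M) : tv H j (m + m') = tv H j m + tv H j m' := by
  funext i
  show (if i = j then m + m' else 0) = (if i = j then m else 0) + (if i = j then m' else 0)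
  split_ifs <;> simp

omit [Module ℂ M] [Module (A N l q) M] [IsScalarTower ℂ (A N l q) M] in
theorem tv_sub (j : Fin (N + 1)) (m m' : M) : tv H j (m - m') = tv H j m - tv H j m' := by
  funext i
  show (if i = j then m - m' else 0) = (if i = j then m else 0) - (if i = j then m' else 0)
  split_ifs <;> simp

omit [Module (A N l q) M] [IsScalarTower ℂ (A N l q) M] in
theorem tv_smul (j : Fin (N + 1)) (c : ℂ) (m : M) : tv H j (c • m) = c • tv H j m := by
  funext i
  show (if i = j then c • m else 0) = c • (if i = j then m else 0)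
  split_ifs <;> simp

theorem smul_comm' (c : ℂ) (a : A N l q) (m : M) : a • (c • m) = c • (a • m) :=
  (lsm a).map_smul c m

theorem act_tv (a : A N l q) (i : Fin (N + 1)) (w : M) (r : Fin (N + 1)) :
    (a • tv H i w) r = H a r i • w := by
  rw [Ten.smul_apply]
  rw [Finset.sum_eq_single i]
  · show H a r i • (if i = i then w else 0) = _
    rw [if_pos rfl]
  · intro b _ hb
    show H a r b • (if b = i then w else 0) = _
    rw [if_neg hb, smul_zero]
  · intro h
    exact absurd (Finset.mem_univ i) h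

theorem actM_tv (Y : Mat N (A N l q)) (i : Fin (N + 1)) (w : M) (r : Fin (N + 1)) :
    (actM Y (tv H i w)) r = Y r i • w := by
  rw [actM_apply]
  rw [Finset.sum_eq_single i]
  · show Y r i • (if i = i then w else 0) = _
    rw [if_pos rfl]
  · intro b _ hb
    show Y r b • (if b = i then w else 0) = _
    rw [if_neg hb, smul_zero]
  · intro h
    exact absurd (Finset.mem_univ i) h

end

section

variable {N l : ℕ} {q : ℂ} (D : Dl N l q) {M : Type} [AddCommGroup M]
  [Module ℂ M] [Module (A N l q) M] [IsScalarTower ℂ (A N l q) M]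

theorem F_ne (k : ℕ) (i : Fin (N + 1)) (hk : k ≠ (i : ℕ)) (w : M) :
    gF N l q k • tv D.dl i w = tv D.dl i (gF N l q k • w) := by
  funext r
  rw [act_tv, D.dl_F]
  show ((if r = i then gF N l q k else 0) + (if (r : ℕ) = k + 1 ∧ (i : ℕ) = k then
    gK N l q (k + 1) * ki l (gK N l q) k else 0)) • w = if r = i then gF N l q k • w else 0
  have hn : ¬ ((r : ℕ) = k + 1 ∧ (i : ℕ) = k) := fun h => hk h.2.symm
  rw [if_neg hn, add_zero]
  split_ifs <;> simp

theorem F_eq (i i' : Fin (N + 1)) (hi : (i' : ℕ) = (i : ℕ) + 1) (w : M) :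
    gF N l q (i : ℕ) • tv D.dl i w = tv D.dl i (gF N l q (i : ℕ) • w) +
      tv D.dl i' ((gK N l q ((i : ℕ) + 1) * ki l (gK N l q) (i : ℕ)) • w) := by
  funext r
  rw [act_tv, D.dl_F]
  show ((if r = i then gF N l q (i : ℕ) else 0) + (if (r : ℕ) = (i : ℕ) + 1 ∧ (i : ℕ) = (i : ℕ)
    then gK N l q ((i : ℕ) + 1) * ki l (gK N l q) (i : ℕ) else 0)) • w =
      (if r = i then gF N l q (i : ℕ) • w else 0) +
      (if r = i' then (gK N l q ((i : ℕ) + 1) * ki l (gK N l q) (i : ℕ)) • w else 0)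
  have h1 : ((r : ℕ) = (i : ℕ) + 1 ∧ (i : ℕ) = (i : ℕ)) ↔ r = i' := by
    rw [← hi]
    constructor
    · rintro ⟨h, -⟩
      exact Fin.ext h
    · intro h
      exact ⟨by rw [h], rfl⟩
  rw [add_smul]
  congr 1
  · split_ifs <;> simp
  · by_cases hr : r = i'
    · rw [if_pos hr, if_pos (h1.mpr hr)]
    · rw [if_neg hr, if_neg (fun h => hr (h1.mp h)), zero_smul]

theorem rvo_tv (d : ℕ) : ∀ (s : ℕ) (i : Fin (N + 1)) (_ : (i : ℕ) < s) (w : M),
    rvoA q (gF N l q) d s • tv D.dl i w = tv D.dl i (rvoA q (gF N l q) d s • w) := by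
  induction d with
  | zero =>
    intro s i hs w
    exact F_ne D s i (by omega) w
  | succ d ih =>
    intro s i hs w
    simp only [rvoA, sub_smul, mul_smul, smul_assoc]
    rw [F_ne D s i (by omega), ih (s + 1) i (by omega), ih (s + 1) i (by omega),
      F_ne D s i (by omega), tv_sub, tv_smul]

theorem Kb (a : ℕ) (d : ℕ) : ∀ (s : ℕ) (_ : a < s),
    gK N l q a * rvoA q (gF N l q) d s = rvoA q (gF N l q) d s * gK N l q a := by
  have h0 : ∀ s, a < s → gK N l q a * gF N l q s = gF N l q s * gK N l q a := by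
    intro s hs
    have := (glA N l q).KF a s
    have hp : pr a s = 0 := by
      unfold pr
      rw [if_neg (by omega), if_neg (by omega)]
    rw [hp, neg_zero, zpow_zero, one_smul] at this
    exact this
  induction d with
  | zero =>
    intro s hs
    exact h0 s hs
  | succ d ih =>
    intro s hs
    simp only [rvoA]
    have h1 := h0 s hs
    have h2 := ih (s + 1) (by omega)
    rw [mul_sub, sub_mul, mul_smul_comm, smul_mul_assoc, ← mul_assoc, h2, mul_assoc, h1,
      ← mul_assoc, ← mul_assoc, h1, mul_assoc (gF N l q s), h2, ← mul_assoc]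

theorem Ka (d : ℕ) (s : ℕ) :
    gK N l q s * rvoA q (gF N l q) d s = q⁻¹ • (rvoA q (gF N l q) d s * gK N l q s) := by
  have h0 : gK N l q s * gF N l q s = q⁻¹ • (gF N l q s * gK N l q s) := by
    have := (glA N l q).KF s s
    have hp : pr s s = 1 := by
      unfold pr
      rw [if_pos rfl]
    rw [hp, zpow_neg_one] at this
    exact this
  rcases d with _ | d
  · exact h0
  · simp only [rvoA]
    have h2 := Kb (N := N) (l := l) (q := q) s d (s + 1) (by omega)
    rw [mul_sub, sub_mul, mul_smul_comm, smul_mul_assoc, ← mul_assoc, h2, mul_assoc, h0,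
      ← mul_assoc, h0, smul_mul_assoc, mul_smul_comm, mul_assoc (gF N l q s), h2, smul_sub,
      ← mul_assoc, ← mul_assoc]

theorem K_pow_smul (a : ℕ) (c : ℂ) (w : M) (h : gK N l q a • w = c • w) (n : ℕ) :
    gK N l q a ^ n • w = c ^ n • w := by
  induction n with
  | zero => simp
  | succ n ih =>
    rw [pow_succ, mul_smul, h, smul_comm', ih, smul_smul, pow_succ, mul_comm]

theorem ki_smul (hl : l ≠ 0) (a : ℕ) (c : ℂ) (w : M) (h : gK N l q a • w = c • w)
    (hc : c ^ l = 1) : ki l (gK N l q) a • w = c⁻¹ • w := by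
  unfold ki
  rw [K_pow_smul a c w h]
  congr 1
  have hc0 : c ≠ 0 := by
    rintro rfl
    rw [zero_pow hl] at hc
    exact zero_ne_one hc
  have : c ^ (l - 1) * c = 1 := by
    rw [← pow_succ, Nat.sub_add_cancel (Nat.one_le_iff_ne_zero.mpr hl), hc]
  exact eq_inv_of_mul_eq_one_left this

theorem qz_pow (hq : q ^ l = 1) (c : ZMod l) : (qz q c) ^ l = 1 := by
  unfold qz
  rw [← pow_mul, mul_comm, pow_mul, hq, one_pow]

theorem qz_add [NeZero l] (hq : q ^ l = 1) (a b : ZMod l) : qz q (a + b) = qz q a * qz q b := by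
  unfold qz
  rw [ZMod.val_add, ← pow_add, ← pow_eq_pow_mod _ hq]

theorem qz_nat [NeZero l] (hq : q ^ l = 1) (n : ℕ) : qz q ((n : ℕ) : ZMod l) = q ^ n := by
  unfold qz
  rw [ZMod.val_natCast, ← pow_eq_pow_mod _ hq]

theorem rv_smul (lam : Fin (N + 1) → ZMod l) (m : M) (hm : Sing q lam m) (d : ℕ) :
    ∀ i, rvA q (gE N l q) d i • m = 0 := by
  induction d with
  | zero => exact hm.1
  | succ d ih =>
    intro i
    simp only [rvA, sub_smul, mul_smul, smul_assoc]
    rw [hm.1 i, ih (i + 1), smul_zero, smul_zero, smul_zero, sub_zero]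

/-- The claim, for the distance `d + 1`. -/
theorem claim [NeZero l] (hP : Par N l q) (lam : Fin (N + 1) → ZMod l) (m : M)
    (hm : Sing q lam m) (d : ℕ) : ∀ i j : Fin (N + 1), (j : ℕ) = (i : ℕ) + d + 1 →
    tv D.dl i (rvoA q (gF N l q) d (i : ℕ) • m) +
      (q⁻¹ ^ (2 * d) * (qz q (lam i))⁻¹ * qz q (lam j)) • tv D.dl j m ∈ Ulow D.dl m j := by
  have hq1 : q ^ l = 1 := hP.prim.pow_eq_one
  have hl : l ≠ 0 := NeZero.ne l
  have hq0 : q ≠ 0 := hP.prim.ne_zero hl
  have hQ0 : ∀ i, qz q (lam i) ≠ 0 := fun i => pow_ne_zero _ hq0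
  have hlow : ∀ i j : Fin (N + 1), i < j → tv D.dl i m ∈ Ulow D.dl m j := fun i j hij =>
    Submodule.subset_span ⟨i, hij, rfl⟩
  have hKK : ∀ i i' : Fin (N + 1), (i' : ℕ) = (i : ℕ) + 1 →
      (gK N l q ((i : ℕ) + 1) * ki l (gK N l q) (i : ℕ)) • m =
        ((qz q (lam i))⁻¹ * qz q (lam i')) • m := by
    intro i i' hi
    rw [mul_smul, ki_smul hl _ _ _ (hm.2 i) (qz_pow hq1 _), smul_comm', ← hi, hm.2 i', smul_smul]
  induction d with
  | zero =>
    intro i j hij
    have hij' : (j : ℕ) = (i : ℕ) + 1 := by omega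
    have h1 := F_eq D i j hij' m
    rw [hKK i j hij', tv_smul] at h1
    have h2 : gF N l q (i : ℕ) • tv D.dl i m ∈ Ulow D.dl m j :=
      Submodule.smul_mem _ _ (hlow i j (by rw [Fin.lt_def]; omega))
    rw [h1] at h2
    simpa [rvoA] using h2
  | succ d ih =>
    intro i j hij
    obtain ⟨i', hi'⟩ : ∃ i' : Fin (N + 1), (i' : ℕ) = (i : ℕ) + 1 :=
      ⟨⟨(i : ℕ) + 1, by have := j.2; omega⟩, rfl⟩
    have hij1 : i < j := by rw [Fin.lt_def]; omega
    have hij2 : i' < j := by rw [Fin.lt_def]; omega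
    obtain ⟨R, hR⟩ : ∃ R, R = rvoA q (gF N l q) d ((i : ℕ) + 1) := ⟨_, rfl⟩
    have hRi : ∀ w : M, R • tv D.dl i w = tv D.dl i (R • w) := fun w => by
      rw [hR]
      exact rvo_tv D d _ i (by omega) w
    -- first part
    have e1 : tv D.dl i (R • (gF N l q (i : ℕ) • m)) ∈ Ulow D.dl m j := by
      rw [← hRi]
      have h1 := F_eq D i i' hi' m
      rw [hKK i i' hi', tv_smul] at h1
      have h2 : tv D.dl i (gF N l q (i : ℕ) • m) = gF N l q (i : ℕ) • tv D.dl i m -
          ((qz q (lam i))⁻¹ * qz q (lam i')) • tv D.dl i' m := by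
        rw [h1]
        abel
      rw [h2]
      apply Submodule.smul_mem
      apply Submodule.sub_mem
      · exact Submodule.smul_mem _ _ (hlow i j hij1)
      · exact Submodule.smul_of_tower_mem _ _ (hlow i' j hij2)
    -- second part
    have hKR : (gK N l q ((i : ℕ) + 1) * ki l (gK N l q) (i : ℕ)) • (R • m) =
        (q⁻¹ * ((qz q (lam i))⁻¹ * qz q (lam i'))) • (R • m) := by
      have k1 : gK N l q (i : ℕ) • (R • m) = qz q (lam i) • (R • m) := by
        rw [← mul_smul, hR, Kb (i : ℕ) d _ (by omega), mul_smul, hm.2 i, smul_comm']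
      have k2 : gK N l q ((i : ℕ) + 1) • (R • m) = (q⁻¹ * qz q (lam i')) • (R • m) := by
        rw [← mul_smul, hR, Ka d, smul_assoc, mul_smul, ← hi', hm.2 i', smul_comm', smul_smul]
      rw [mul_smul, ki_smul hl _ _ _ k1 (qz_pow hq1 _), smul_comm', k2, smul_smul]
      congr 1
      ring
    have h3 := F_eq D i i' hi' (R • m)
    rw [hKR, tv_smul] at h3
    have h4 : gF N l q (i : ℕ) • tv D.dl i (R • m) ∈ Ulow D.dl m j := by
      rw [← hRi]
      exact Submodule.smul_mem _ _ (Submodule.smul_mem _ _ (hlow i j hij1))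
    have h5 := ih i' j (by omega)
    rw [hi', ← hR] at h5
    have h6 : tv D.dl i (rvoA q (gF N l q) (d + 1) (i : ℕ) • m) +
        (q⁻¹ ^ (2 * (d + 1)) * (qz q (lam i))⁻¹ * qz q (lam j)) • tv D.dl j m =
        tv D.dl i (R • (gF N l q (i : ℕ) • m)) -
          q⁻¹ • (gF N l q (i : ℕ) • tv D.dl i (R • m)) +
          (q⁻¹ * (q⁻¹ * ((qz q (lam i))⁻¹ * qz q (lam i')))) •
            (tv D.dl i' (R • m) +
              (q⁻¹ ^ (2 * d) * (qz q (lam i'))⁻¹ * qz q (lam j)) • tv D.dl j m) := by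
      have h7 : rvoA q (gF N l q) (d + 1) (i : ℕ) • m = R • (gF N l q (i : ℕ) • m) -
          q⁻¹ • (gF N l q (i : ℕ) • (R • m)) := by
        simp only [rvoA, sub_smul, mul_smul, smul_assoc, hR]
      rw [h7, h3, tv_sub, tv_smul]
      have h8 : q⁻¹ * (q⁻¹ * ((qz q (lam i))⁻¹ * qz q (lam i'))) *
          (q⁻¹ ^ (2 * d) * (qz q (lam i'))⁻¹ * qz q (lam j)) =
          q⁻¹ ^ (2 * (d + 1)) * (qz q (lam i))⁻¹ * qz q (lam j) := by
        have := hQ0 i'
        have h9 : 2 * (d + 1) = 2 * d + 2 := by ring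
        rw [h9, pow_add]
        generalize q⁻¹ ^ (2 * d) = p
        generalize q⁻¹ = a
        field_simp
      rw [← h8]
      generalize tv D.dl i (R • gF N l q (i : ℕ) • m) = X1
      generalize tv D.dl i (gF N l q (i : ℕ) • R • m) = X2
      module
    rw [h6]
    apply Submodule.add_mem
    · apply Submodule.sub_mem _ e1
      exact Submodule.smul_of_tower_mem _ _ h4
    · exact Submodule.smul_of_tower_mem _ _ h5

theorem geo (q : ℂ) (j : ℕ) : 1 - (q⁻¹ ^ (2 * j)) =
    (1 - q⁻¹ ^ 2) * ∑ a ∈ Finset.range j, q⁻¹ ^ (2 * (j - 1 - a)) := by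
  have h1 : ∑ a ∈ Finset.range j, q⁻¹ ^ (2 * (j - 1 - a)) =
      ∑ a ∈ Finset.range j, (q⁻¹ ^ 2) ^ a := by
    rw [← Finset.sum_range_reflect]
    apply Finset.sum_congr rfl
    intro a ha
    have ha' := Finset.mem_range.mp ha
    rw [← pow_mul]
    congr 2
    omega
  rw [h1, mul_comm (1 - q⁻¹ ^ 2), geom_sum_mul_neg, pow_mul]

end

theorem s_layx : S_LAYX := by
  intro N l _ q D hP M _ _ _ _ lam m hm j
  have hq1 : q ^ l = 1 := hP.prim.pow_eq_one
  have hl : l ≠ 0 := NeZero.ne l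
  have hq0 : q ≠ 0 := hP.prim.ne_zero hl
  have hQ0 : ∀ i, qz q (lam i) ≠ 0 := fun i => pow_ne_zero _ hq0
  have hL : actM (Lmat N q (gE N l q) (gK N l q)) (tv D.dl j m) =
      (qz q (lam j)) • tv D.dl j m := by
    rw [← tv_smul]
    funext b
    rw [actM_tv]
    show Lent q (gE N l q) (gK N l q) (b : ℕ) (j : ℕ) • m = if b = j then qz q (lam j) • m else 0
    unfold Lent
    by_cases hb : b = j
    · rw [if_pos (by rw [hb]), if_pos hb, hb]
      exact hm.2 j
    · rw [if_neg (fun h => hb (Fin.ext h)), if_neg hb]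
      split_ifs
      · rw [smul_assoc, mul_smul, hm.2 b, smul_comm', rv, rv_smul lam m hm, smul_zero, smul_zero]
      · rw [zero_smul]
  have hY : actM (Ymat N q (gF N l q) (gK N l q)) (tv D.dl j m) = qz q (lam j) • tv D.dl j m +
      ∑ a ∈ Finset.Iio j, ((q - q⁻¹) * (q⁻¹ * qz q (lam a))) •
        tv D.dl a (rvo q (gF N l q) (a : ℕ) (j : ℕ) • m) := by
    funext r
    rw [actM_tv]
    have hsum : (qz q (lam j) • tv D.dl j m +
        ∑ a ∈ Finset.Iio j, ((q - q⁻¹) * (q⁻¹ * qz q (lam a))) •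
          tv D.dl a (rvo q (gF N l q) (a : ℕ) (j : ℕ) • m)) r =
        (if r = j then qz q (lam j) • m else 0) +
        ∑ a ∈ Finset.Iio j, (if r = a then ((q - q⁻¹) * (q⁻¹ * qz q (lam a))) •
          (rvo q (gF N l q) (a : ℕ) (j : ℕ) • m) else 0) := by
      have e1 : ∀ (s : Finset (Fin (N + 1))) (f : Fin (N + 1) → Ten D.dl M),
          (∑ a ∈ s, f a) r = ∑ a ∈ s, f a r := by
        intro s f
        exact Finset.sum_apply r s f
      show (qz q (lam j) • tv D.dl j m) r + (∑ a ∈ Finset.Iio j,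
        ((q - q⁻¹) * (q⁻¹ * qz q (lam a))) •
          tv D.dl a (rvo q (gF N l q) (a : ℕ) (j : ℕ) • m)) r = _
      rw [e1]
      congr 1
      · show qz q (lam j) • (if r = j then m else 0) = _
        split_ifs <;> simp
      · apply Finset.sum_congr rfl
        intro a _
        show ((q - q⁻¹) * (q⁻¹ * qz q (lam a))) • (if r = a then
          (rvo q (gF N l q) (a : ℕ) (j : ℕ) • m) else 0) = _
        split_ifs <;> simp
    rw [hsum]
    show Yent q (gF N l q) (gK N l q) (r : ℕ) (j : ℕ) • m = _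
    unfold Yent
    rcases lt_trichotomy r j with hr | hr | hr
    · have hr' : (r : ℕ) < (j : ℕ) := hr
      rw [if_neg (by omega), if_pos hr', if_neg hr.ne, zero_add,
        Finset.sum_eq_single_of_mem r (Finset.mem_Iio.mpr hr)]
      · rw [if_pos rfl, smul_assoc, rvo, Ka, smul_assoc, mul_smul, hm.2 r, smul_comm',
          smul_smul, smul_smul]
        congr 1
        ring
      · intro b _ hb
        rw [if_neg hb.symm]
    · rw [if_pos (by rw [hr]), if_pos hr, hr, Finset.sum_eq_zero, add_zero]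
      · exact hm.2 j
      · intro b hb
        rw [if_neg (Finset.mem_Iio.mp hb).ne']
    · have hr' : (j : ℕ) < (r : ℕ) := hr
      rw [if_neg (by omega), if_neg (by omega), if_neg hr.ne', zero_add, zero_smul, eq_comm]
      apply Finset.sum_eq_zero
      intro b hb
      have := Finset.mem_Iio.mp hb
      rw [if_neg (this.trans hr).ne']
  have hX : actM (Xm N l q) (tv D.dl j m) = qz q (lam j) • (qz q (lam j) • tv D.dl j m +
      ∑ a ∈ Finset.Iio j, ((q - q⁻¹) * (q⁻¹ * qz q (lam a))) •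
        tv D.dl a (rvo q (gF N l q) (a : ℕ) (j : ℕ) • m)) := by
    rw [Xm, actM_mul, hL, map_smul, hY]
  have hκ : qz q (2 * xl lam j) = qz q (lam j) ^ 2 * q⁻¹ ^ (2 * (j : ℕ)) := by
    have h1 : qz q (2 * xl lam j) * qz q (((2 * (j : ℕ) : ℕ)) : ZMod l) =
        qz q (lam j + lam j) := by
      rw [← qz_add hq1]
      congr 1
      unfold xl
      push_cast
      ring
    rw [qz_nat hq1, qz_add hq1] at h1
    have h2 : q ^ (2 * (j : ℕ)) ≠ 0 := pow_ne_zero _ hq0
    rw [inv_pow, eq_mul_inv_iff_mul_eq₀ h2, h1, sq]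
  have hfin : actM (Xm N l q) (tv D.dl j m) - qz q (2 * xl lam j) • tv D.dl j m =
      ∑ a ∈ Finset.Iio j, (qz q (lam j) * ((q - q⁻¹) * (q⁻¹ * qz q (lam a)))) •
        (tv D.dl a (rvoA q (gF N l q) ((j : ℕ) - (a : ℕ) - 1) (a : ℕ) • m) +
          (q⁻¹ ^ (2 * ((j : ℕ) - (a : ℕ) - 1)) * (qz q (lam a))⁻¹ * qz q (lam j)) •
            tv D.dl j m) := by
    have h1 : ∑ a ∈ Finset.Iio j, (qz q (lam j) * ((q - q⁻¹) * (q⁻¹ * qz q (lam a)))) •
        (tv D.dl a (rvoA q (gF N l q) ((j : ℕ) - (a : ℕ) - 1) (a : ℕ) • m) +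
          (q⁻¹ ^ (2 * ((j : ℕ) - (a : ℕ) - 1)) * (qz q (lam a))⁻¹ * qz q (lam j)) •
            tv D.dl j m) =
        (∑ a ∈ Finset.Iio j, (qz q (lam j) * ((q - q⁻¹) * (q⁻¹ * qz q (lam a)))) •
          tv D.dl a (rvo q (gF N l q) (a : ℕ) (j : ℕ) • m)) +
        (∑ a ∈ Finset.Iio j, (qz q (lam j) ^ 2 * ((1 - q⁻¹ ^ 2) *
          q⁻¹ ^ (2 * ((j : ℕ) - 1 - (a : ℕ)))))) • tv D.dl j m := by
      rw [Finset.sum_smul, ← Finset.sum_add_distrib]
      apply Finset.sum_congr rfl
      intro a _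
      rw [smul_add, smul_smul]
      congr 2
      have h2 : (j : ℕ) - (a : ℕ) - 1 = (j : ℕ) - 1 - (a : ℕ) := by omega
      rw [h2]
      have := hQ0 a
      field_simp
    rw [h1, hX, smul_add, Finset.smul_sum, smul_smul]
    have h3 : ∑ a ∈ Finset.Iio j, (qz q (lam j) ^ 2 * ((1 - q⁻¹ ^ 2) *
          q⁻¹ ^ (2 * ((j : ℕ) - 1 - (a : ℕ))))) =
        qz q (lam j) ^ 2 - qz q (lam j) ^ 2 * q⁻¹ ^ (2 * (j : ℕ)) := by
      have h4 : ∑ a ∈ Finset.Iio j, q⁻¹ ^ (2 * ((j : ℕ) - 1 - (a : ℕ))) =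
          ∑ a ∈ Finset.range (j : ℕ), q⁻¹ ^ (2 * ((j : ℕ) - 1 - a)) := by
        have h5 : Finset.range (j : ℕ) = (Finset.Iio j).map Fin.valEmbedding := by
          rw [Fin.map_valEmbedding_Iio]
          ext x
          simp
        rw [h5, Finset.sum_map]
        rfl
      have h6 := geo q (j : ℕ)
      rw [← h4] at h6
      rw [← Finset.mul_sum, ← Finset.mul_sum, ← h6]
      ring
    rw [h3, hκ, sub_smul]
    simp only [smul_smul]
    rw [sq]
    abel
  rw [hfin]
  apply Submodule.sum_mem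
  intro a ha
  have ha' : (a : ℕ) < (j : ℕ) := Fin.lt_def.mp (Finset.mem_Iio.mp ha)
  exact Submodule.smul_of_tower_mem _ _ (claim D hP lam m hm _ a j (by omega))

end Pool.Agent.Helper50.SQ
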