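import Pool.Agent.Helper41.SQ.GoalsN

/-!
Project SQ (MP_bb32d1_al), stage B, packet SQN-VANF.
-/

set_option autoImplicit false
set_option linter.unusedSectionVars false

namespace Pool.Agent.Helper50.SQN

noncomputable section

open Matrix Pool.Agent.Helper19.SQ Pool.Agent.Helper34.SQ Pool.Agent.Helper41.SQ

variable {A : Type} [Ring A] [Algebra ℂ A] {ι : Type} [Fintype ι] [DecidableEq ι] {l : ℕ}

/-- the chain of functionals -/
def sg (C : Core A ι l) (c : ZMod l) (m : ZMod l → ℤ) (τ : A →ₗ[ℂ] ℂ) :
    ℕ → ι × ι → (A →ₗ[ℂ] ℂ)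
  | 0 => fun y => C.w y.2 • Pool.Agent.Helper28.SQ.fnl τ C.δ (C.e (m - al c)) y.2 y.1
  | j + 1 => Pool.Agent.Helper54.SQ.om C.δ (act (sg C c m τ j) (sc A C.S))

theorem n_vanf (hSIDE : S_SIDE) (hSDF : S_SDF) (hBLK : S_BLK) (hSTP : S_STP) (hOMF : S_OMF)
    (hSG1 : S_SG1) : S_VANF := by
  intro A _ _ ι _ _ l hl C P ζ c m τ hτ hyp
  obtain ⟨S, hD, hX, hR, hz⟩ := hSDF A ι C.toCore0 P
  have hblk := (hBLK A ι l hl C S c).2 hD
  have hside := hSIDE A ι S l C.e C.types _ (-al c) hblk τ m hτ.tr hτ.blk (by
    intro k x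
    rw [hX, hD, ← sub_eq_add_neg]
    exact hyp k x)
  have hm0 : m + (0 + 1) • (-al c) = m - al c := by
    rw [zero_add, one_smul, ← sub_eq_add_neg]
  have key : ∀ j : ℕ, IsFE C ζ c (m + (j + 1) • (-al c)) (sg C c m τ j) ∧
      ∀ p a b, sg C c m τ j (p, a) b =
        C.w a * sge S τ (fun j => C.e (m + (j + 1) • (-al c))) j p a b := by
    intro j
    induction j with
    | zero =>
      refine ⟨?_, ?_⟩
      · rw [hm0]
        exact (hSG1 A ι l C ζ c m τ hτ).2
      · intro p a b
        change C.w a * τ (C.δ (b * C.e (m - al c)) a p) =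
          C.w a * τ (S.D (b * C.e (m + (0 + 1) • (-al c))) a p)
        rw [hm0, hD]
    | succ j ih =>
      obtain ⟨hFE, hval⟩ := ih
      have hz0 : ∀ i a, ∑ x, sg C c m τ j x ((X2 C.ε C.X ^ i *ᵥ C.u) x * a) = 0 := by
        intro k x'
        have h1 := hside j k x'
        have h2 : ∀ p i, sge S τ (fun j => C.e (m + (j + 1) • (-al c))) j p i (S.z k p i * x') =
            P.κ1⁻¹ * sg C c m τ j (p, i) ((X2 C.ε C.X ^ k *ᵥ C.u) (p, i) * x') := by
          intro p i
          have h3 := hval p i (S.z k p i * x')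
          have h4 : S.z k p i * x' =
              (P.κ1⁻¹ * C.w i) • ((X2 C.ε C.X ^ k *ᵥ C.u) (p, i) * x') := by
            rw [hz]
            rw [smul_mul_assoc]
          have h5 : sg C c m τ j (p, i) (S.z k p i * x') =
              (P.κ1⁻¹ * C.w i) * sg C c m τ j (p, i)
                ((X2 C.ε C.X ^ k *ᵥ C.u) (p, i) * x') := by
            rw [h4, map_smul, smul_eq_mul]
          rw [h5] at h3
          refine mul_left_cancel₀ (C.w_ne i) ?_
          rw [← h3]
          ring
        simp only [h2] at h1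
        simp only [← Finset.mul_sum] at h1
        rw [Fintype.sum_prod_type]
        exact (mul_eq_zero.1 h1).resolve_left (inv_ne_zero P.κ1_ne)
      have hEF := (hSTP A ι l C ζ c _ (sg C c m τ j)).2 hFE hz0
      have hFE' := ((hOMF A ι l C ζ c _ (act (sg C c m τ j) (sc A C.S))).2 hEF).1
      have hm1 : m + (j + 1) • (-al c) - al c = m + (j + 1 + 1) • (-al c) := by
        rw [succ_nsmul (-al c) (j + 1), sub_eq_add_neg, add_assoc]
      rw [hm1] at hFE'
      refine ⟨hFE', ?_⟩
      intro p a b
      have h3 := hFE'.t3 b (p, a)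
      change sg C c m τ (j + 1) (p, a) _ = sg C c m τ (j + 1) (p, a) b at h3
      rw [← h3]
      change Pool.Agent.Helper54.SQ.om C.δ (act (sg C c m τ j) (sc A C.S)) (p, a) _ = _
      rw [Pool.Agent.Helper54.SQ.om_apply]
      simp only [sge, Finset.mul_sum]
      refine Finset.sum_congr rfl fun k _ => ?_
      rw [Pool.Agent.Helper93.SQ.act_sc, Fintype.sum_prod_type]
      refine Finset.sum_congr rfl fun x _ => ?_
      refine Finset.sum_congr rfl fun y _ => ?_
      rw [hval, hR, hD]
      have h4 := P.SSc a x k y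
      rw [← mul_assoc, ← mul_assoc, ← h4]
      ring
  -- large indices
  have hac : al c c = 1 := by
    unfold al
    have h1 : c ≠ c + 1 := by
      intro h
      have h2 : (1 : ZMod l) = 0 := by
        have := congrArg (fun z => z - c) h
        simp only [sub_self, add_sub_cancel_left] at this
        exact this.symm
      have h3 : Fact (1 < l) := ⟨by omega⟩
      exact one_ne_zero h2
    rw [if_pos rfl, if_neg h1]
    norm_num
  have hlarge : sg C c m τ (m c).toNat = 0 := by
    have he : C.e (m + ((m c).toNat + 1) • (-al c)) = 0 := by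
      refine C.e_types _ ?_
      intro h
      have h1 := C.types_nonneg _ h c
      rw [Pi.add_apply, Pi.smul_apply, Pi.neg_apply, hac, nsmul_eq_mul] at h1
      push_cast at h1
      have h2 := Int.self_le_toNat (m c)
      linarith
    have h3 := (key (m c).toNat).1.t3
    funext y
    ext b
    rw [← h3 b y, he, mul_zero, map_zero]
    rfl
  have hdown : ∀ j, sg C c m τ (j + 1) = 0 → sg C c m τ j = 0 := by
    intro j h
    obtain ⟨hFE, hval⟩ := key j
    have hz0 : act (sg C c m τ j) (sc A C.S) = 0 := by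
      have hEF := (hSTP A ι l C ζ c (m + (j + 1) • (-al c)) (sg C c m τ j)).2 hFE ?_
      · exact ((hOMF A ι l C ζ c _ (act (sg C c m τ j) (sc A C.S))).2 hEF).2 h
      · intro k x'
        have h1 := hside j k x'
        have h2 : ∀ p i, sge S τ (fun j => C.e (m + (j + 1) • (-al c))) j p i (S.z k p i * x') =
            P.κ1⁻¹ * sg C c m τ j (p, i) ((X2 C.ε C.X ^ k *ᵥ C.u) (p, i) * x') := by
          intro p i
          have h3 := hval p i (S.z k p i * x')
          have h4 : S.z k p i * x' =
              (P.κ1⁻¹ * C.w i) • ((X2 C.ε C.X ^ k *ᵥ C.u) (p, i) * x') := by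
            rw [hz]
            rw [smul_mul_assoc]
          have h5 : sg C c m τ j (p, i) (S.z k p i * x') =
              (P.κ1⁻¹ * C.w i) * sg C c m τ j (p, i)
                ((X2 C.ε C.X ^ k *ᵥ C.u) (p, i) * x') := by
            rw [h4, map_smul, smul_eq_mul]
          rw [h5] at h3
          refine mul_left_cancel₀ (C.w_ne i) ?_
          rw [← h3]
          ring
        simp only [h2] at h1
        simp only [← Finset.mul_sum] at h1
        rw [Fintype.sum_prod_type]
        exact (mul_eq_zero.1 h1).resolve_left (inv_ne_zero P.κ1_ne)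
    have h1 : act (act (sg C c m τ j) (sc A C.S)) (sc A C.T) = sg C c m τ j := by
      rw [act_act, sc_mul, C.ST, sc_one, act_one]
    rw [← h1, hz0, Pool.Agent.Helper93.SQ.act_zero]
  have hzero : ∀ j, sg C c m τ j = 0 → sg C c m τ 0 = 0 := by
    intro j
    induction j with
    | zero => exact fun h => h
    | succ j ih => exact fun h => ih (hdown j h)
  have h0 := hzero _ hlarge
  intro y b i j
  have h3 : C.w i * τ (y * C.δ (b * C.e (m - al c)) i j) = 0 := by
    have h4 := congrArg τ (Pool.Agent.Helper28.SQ.capB C y (b * C.e (m - al c)) i j)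
    rw [map_smul, smul_eq_mul] at h4
    rw [← h4, map_sum]
    refine Finset.sum_eq_zero fun k _ => ?_
    have h1 := congrFun h0 (j, k)
    have h2 := congrArg (fun F : A →ₗ[ℂ] ℂ => F (C.ε y k i * b)) h1
    simp only [sg, LinearMap.smul_apply, smul_eq_mul, Pool.Agent.Helper28.SQ.fnl_apply,
      Pi.zero_apply, LinearMap.zero_apply, mul_assoc] at h2
    rw [map_smul, smul_eq_mul]
    exact h2
  exact (mul_eq_zero.1 h3).resolve_left (C.w_ne i)

end

end Pool.Agent.Helper50.SQN
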